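import Mathlib
import Pool.Agent.Results.MP_0c861e_co.LabelledPrimitive

/-!
# Convex geometries: super-factorial growth (helper file for MP_0c861e, Q2)
-/

namespace Run7.h840.CGU

open Finset Pool.Agent.R129.CG Pool.Agent.Results.MP_0c861e_co.LabelledPrimitive

/-- The members with `s` elements. -/
def lev {X : Type} (G : Set (Set X)) (s : ℕ) : Set (Set X) := {F | F ∈ G ∧ F.ncard = s}

lemma exists_lev {n M : ℕ} {G : Set (Set (Fin n))} (h : (n + 1) * M < G.ncard + 1) (hM : 1 ≤ M) :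
    ∃ s, M ≤ (lev G s).ncard := by
  classical
  by_contra hno
  push Not at hno
  have h1 : G ⊆ ⋃ s ∈ range (n + 1), lev G s := by
    intro F hF
    rw [Set.mem_iUnion₂]
    refine ⟨F.ncard, ?_, hF, rfl⟩
    rw [mem_range]
    have := Set.ncard_le_card F
    rw [Nat.card_eq_fintype_card, Fintype.card_fin] at this
    omega
  have h2 := (Set.ncard_le_ncard h1 (Set.toFinite _)).trans
    (Finset.set_ncard_biUnion_le _ _)
  have h3 : ∑ s ∈ range (n + 1), (lev G s).ncard ≤ ∑ _s ∈ range (n + 1), (M - 1) :=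
    sum_le_sum (fun s _ => by have := hno s; omega)
  rw [sum_const, card_range, smul_eq_mul] at h3
  have h4 : (n + 1) * (M - 1) + (n + 1) = (n + 1) * M := by
    have : M = (M - 1) + 1 := by omega
    conv_rhs => rw [this]
    ring
  omega

/-- Many extensions of a geometry with many members. -/
lemma exists_ext {n M : ℕ} (hM : 2 ≤ M) {G : Set (Set (Fin n))} (hG : IsCG G)
    (h : (n + 1) * M ≤ G.ncard) :
    ∃ H0 : Set (Fin M) → Set (Set (Fin n)), (∀ A, Good G (H0 A)) ∧ Function.Injective H0 := by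
  classical
  obtain ⟨s, hs⟩ := exists_lev (M := M) (G := G) (by omega) (by omega)
  have hs1 : 1 ≤ s := by
    by_contra hc
    have h0 : s = 0 := by omega
    subst h0
    have : lev G 0 ⊆ {∅} := by
      rintro F ⟨-, hF⟩
      rw [Set.ncard_eq_zero] at hF
      exact hF
    have := Set.ncard_le_ncard this (Set.toFinite _)
    rw [Set.ncard_singleton] at this
    omega
  have he : Nonempty (Fin M ↪ lev G s) := by
    have := Fintype.ofFinite (lev G s)
    apply Function.Embedding.nonempty_of_card_le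
    rw [Fintype.card_fin, ← Nat.card_eq_fintype_card, Nat.card_coe_set_eq]
    exact hs
  obtain ⟨g⟩ := he
  let H0 : Set (Fin M) → Set (Set (Fin n)) :=
    fun A => {K | K ∈ G ∧ (K.ncard < s ∨ ∃ i ∈ A, K = (g i).1)}
  have hdown : ∀ A (K F : Set (Fin n)), K ∈ H0 A → F ∈ G → F ⊆ K → F ∈ H0 A := by
    intro A K F hK hF hFK
    by_cases he : F = K
    · rw [he]; exact hK
    · refine ⟨hF, Or.inl ?_⟩
      have h1 : F.ncard < K.ncard := Set.ncard_lt_ncard (Set.ssubset_iff_subset_ne.2 ⟨hFK, he⟩)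
      rcases hK.2 with hK | ⟨i, -, hi⟩
      · omega
      · have : K.ncard = s := by
          rw [hi]
          exact (g i).2.2
        omega
  refine ⟨H0, ?_, ?_⟩
  · intro A
    refine ⟨⟨hG.empty, Or.inl (by rw [Set.ncard_empty]; omega)⟩, ?_, ?_, fun K hK => Or.inl hK.1⟩
    · intro F hF F' hF'
      exact hdown A F _ hF (hG.inter _ hF.1 _ hF'.1) Set.inter_subset_left
    · intro F hF K hK
      exact hdown A K _ hK (hG.inter _ hF _ hK.1) Set.inter_subset_right
  · intro A B h1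
    ext i
    have h2 : ∀ C : Set (Fin M), i ∈ C ↔ (g i).1 ∈ H0 C := by
      intro C
      constructor
      · intro hs
        exact ⟨(g i).2.1, Or.inr ⟨i, hs, rfl⟩⟩
      · rintro ⟨-, h3 | ⟨t, ht, h3⟩⟩
        · exfalso
          rw [(g i).2.2] at h3
          omega
        · have : i = t := g.injective (Subtype.ext h3)
          rw [this]
          exact ht
    rw [h2 A, h2 B, h1]

/-- The geometries with at least `K` members. -/
noncomputable def big (n K : ℕ) : ℕ := Nat.card {G : Set (Set (Fin n)) // IsCG G ∧ K ≤ G.ncard}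

lemma big_le (n M : ℕ) (hM : 2 ≤ M) : 2 ^ M * big n ((n + 1) * M) ≤ L (n + 1) := by
  classical
  have hL : L (n + 1) = num (Option (Fin n)) := by
    rw [← num_congr (finSuccEquiv n)]
    rfl
  rw [hL]
  have hch : ∀ G : {G : Set (Set (Fin n)) // IsCG G ∧ (n + 1) * M ≤ G.ncard},
      ∃ H0 : Set (Fin M) → Set (Set (Fin n)), (∀ A, Good G.1 (H0 A)) ∧ Function.Injective H0 :=
    fun G => exists_ext hM G.2.1 G.2.2
  choose H0 h1 h2 using hch
  have hcard : Nat.card (Set (Fin M) × {G : Set (Set (Fin n)) // IsCG G ∧ (n + 1) * M ≤ G.ncard}) =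
      2 ^ M * big n ((n + 1) * M) := by
    rw [Nat.card_prod, Nat.card_eq_fintype_card (α := Set (Fin M)), Fintype.card_set,
      Fintype.card_fin]
    rfl
  rw [← hcard]
  unfold num
  refine Nat.card_le_card_of_injective
    (fun p => ⟨extFam p.2.1 (H0 p.2 p.1), extFam_cg p.2.2.1 (h1 p.2 p.1)⟩) ?_
  rintro ⟨A, G⟩ ⟨B, G'⟩ h
  simp only [Subtype.mk.injEq] at h
  obtain ⟨e1, e2⟩ := extFam_inj h
  have e3 : G = G' := Subtype.ext e1
  subst e3
  rw [h2 G e2]

lemma small_le (n K : ℕ) : L n ≤ big n K + (2 ^ n) ^ K := by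
  classical
  have h1 : L n = {G : Set (Set (Fin n)) | IsCG G}.ncard := (Nat.card_coe_set_eq _)
  have h2 : big n K = {G : Set (Set (Fin n)) | IsCG G ∧ K ≤ G.ncard}.ncard :=
    (Nat.card_coe_set_eq _)
  have h3 : {G : Set (Set (Fin n)) | IsCG G} ⊆ {G : Set (Set (Fin n)) | IsCG G ∧ K ≤ G.ncard} ∪
      Set.range (fun f : Fin K → Set (Fin n) => Set.range f) := by
    intro G hG
    by_cases hK : K ≤ G.ncard
    · exact Or.inl ⟨hG, hK⟩
    · right
      have hne : Nonempty G := ⟨⟨∅, hG.empty⟩⟩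
      have he : Nonempty (G ↪ Fin K) := by
        have := Fintype.ofFinite G
        apply Function.Embedding.nonempty_of_card_le
        rw [Fintype.card_fin, ← Nat.card_eq_fintype_card, Nat.card_coe_set_eq]
        omega
      obtain ⟨e⟩ := he
      refine ⟨fun i => (Function.invFun e i).1, ?_⟩
      ext F
      constructor
      · rintro ⟨i, rfl⟩
        exact (Function.invFun e i).2
      · intro hF
        obtain ⟨i, hi⟩ := Function.invFun_surjective e.injective ⟨F, hF⟩
        exact ⟨i, by simp only [hi]⟩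
  have h4 := (Set.ncard_le_ncard h3 (Set.toFinite _)).trans (Set.ncard_union_le _ _)
  have h5 : (Set.range (fun f : Fin K → Set (Fin n) => Set.range f)).ncard ≤ (2 ^ n) ^ K := by
    rw [← Set.image_univ]
    refine (Set.ncard_image_le (Set.toFinite _)).trans ?_
    rw [Set.ncard_univ, Nat.card_eq_fintype_card]
    simp
  rw [h1, h2]
  omega

/-! ### Arithmetic -/

lemma le_pow {n : ℕ} (hn : 64 ≤ n) : n ≤ 2 ^ (n / 8) := by
  have key : ∀ m, 8 ≤ m → 8 * (m + 1) ≤ 2 ^ m := by
    intro m hm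
    induction m, hm using Nat.le_induction with
    | base => norm_num
    | succ m hm ih => rw [pow_succ]; omega
  have := key (n / 8) (by omega)
  omega

lemma choose_big (n : ℕ) (hn : 1 ≤ n) : 2 ^ (n - 1) ≤ n * (n - 1).choose ((n - 1) / 2) := by
  rw [← Nat.sum_range_choose (n - 1), show n - 1 + 1 = n by omega]
  calc ∑ i ∈ range n, (n - 1).choose i ≤ ∑ _i ∈ range n, (n - 1).choose ((n - 1) / 2) :=
        sum_le_sum (fun i _ => Nat.choose_le_middle i (n - 1))
    _ = n * (n - 1).choose ((n - 1) / 2) := by rw [sum_const, card_range, smul_eq_mul]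

lemma anti (n : ℕ) (hn : 64 ≤ n) : 2 ^ ((n - 1).choose ((n - 1) / 2)) ≤ L n := by
  have hmid := L_anti (n - 1) ((n - 1) / 2) (by omega)
  rwa [show n - 1 + 1 = n by omega] at hmid

/-- Super-factorial growth. -/
lemma growth (n : ℕ) (hn : 64 ≤ n) : 2 ^ (n ^ 2) * L n ≤ 2 * L (n + 1) := by
  have h1 := big_le n (n ^ 2) (by nlinarith)
  have h2 := small_le n ((n + 1) * n ^ 2)
  have h3 : 2 * (2 ^ n) ^ ((n + 1) * n ^ 2) ≤ L n := by
    refine le_trans ?_ (anti n hn)
    rw [← pow_mul, ← pow_succ']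
    apply Nat.pow_le_pow_right (by norm_num)
    have h4 := choose_big n (by omega)
    have h5 := le_pow hn
    have h6 : n ^ 5 ≤ 2 ^ (5 * (n / 8)) := by
      calc n ^ 5 ≤ (2 ^ (n / 8)) ^ 5 := Nat.pow_le_pow_left h5 5
        _ = 2 ^ (5 * (n / 8)) := by rw [← pow_mul]; ring_nf
    have h7 : 4 * 2 ^ (5 * (n / 8)) ≤ 2 ^ (n - 1) := by
      have : 4 * 2 ^ (5 * (n / 8)) = 2 ^ (5 * (n / 8) + 2) := by rw [pow_add]; ring
      rw [this]
      apply Nat.pow_le_pow_right (by norm_num)
      omega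
    have h8 : n * (n * ((n + 1) * n ^ 2) + 1) ≤ 4 * n ^ 5 := by
      have e1 : n * (n * ((n + 1) * n ^ 2) + 1) = n ^ 5 + n ^ 4 + n := by ring
      have e2 : n ^ 4 ≤ n ^ 5 := Nat.pow_le_pow_right (by omega) (by norm_num)
      have e3 : n ≤ n ^ 5 := Nat.le_self_pow (by norm_num) n
      omega
    exact Nat.le_of_mul_le_mul_left (h8.trans ((Nat.mul_le_mul_left 4 h6).trans (h7.trans h4)))
      (by omega)
  have h9 : L n ≤ 2 * big n ((n + 1) * n ^ 2) := by omega
  calc 2 ^ (n ^ 2) * L n ≤ 2 ^ (n ^ 2) * (2 * big n ((n + 1) * n ^ 2)) := Nat.mul_le_mul_left _ h9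
    _ = 2 * (2 ^ (n ^ 2) * big n ((n + 1) * n ^ 2)) := by ring
    _ ≤ 2 * L (n + 1) := Nat.mul_le_mul_left _ h1

lemma L_mono {a b : ℕ} (h : a ≤ b) : L a ≤ L b := by
  induction b, h using Nat.le_induction with
  | base => exact le_rfl
  | succ b _ ih =>
    refine ih.trans (le_trans ?_ (L_succ b))
    exact Nat.le_mul_of_pos_left _ (by positivity)

lemma term2 (n a : ℕ) (ha : 2 ≤ a) (hab : 2 * a ≤ n + 1) (hn : 65 ≤ n) :
    L a * L (n + 1 - a) * 2 ^ (n * (n / 2)) ≤ L n := by
  obtain ⟨b, hb⟩ : ∃ b, b = n + 1 - a := ⟨_, rfl⟩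
  rw [← hb]
  have ha2 := L_le a
  have hhalf : n * (n / 2) * 2 ≤ n * n := by
    rw [mul_assoc]
    exact Nat.mul_le_mul_left _ (by omega)
  rcases Nat.lt_or_ge (16 * n) (2 ^ a) with hbig | hsmall
  · have hmid := anti n (by omega)
    have hsum := choose_big n (by omega)
    set C := (n - 1).choose ((n - 1) / 2) with hC
    have h1 : n * 2 ^ (b + 1) ≤ 2 ^ (n - 2) := by
      have h2 : 16 * (n * 2 ^ (b + 1)) ≤ 16 * 2 ^ (n - 2) := by
        calc 16 * (n * 2 ^ (b + 1)) = (16 * n) * 2 ^ (b + 1) := by ring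
          _ ≤ 2 ^ a * 2 ^ (b + 1) := Nat.mul_le_mul_right _ hbig.le
          _ = 2 ^ (n + 2) := by rw [← pow_add]; congr 1; omega
          _ = 16 * 2 ^ (n - 2) := by
              rw [show n + 2 = 4 + (n - 2) by omega, pow_add]; norm_num
      omega
    have h6 : n ^ 3 ≤ 2 ^ (n - 2) := by
      calc n ^ 3 ≤ (2 ^ (n / 8)) ^ 3 := Nat.pow_le_pow_left (le_pow (by omega)) 3
        _ = 2 ^ (3 * (n / 8)) := by rw [← pow_mul]; ring_nf
        _ ≤ 2 ^ (n - 2) := Nat.pow_le_pow_right (by norm_num) (by omega)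
    have h3 : 2 ^ (b + 1) + n * (n / 2) ≤ C := by
      have h4 : n * (2 ^ (b + 1) + n * (n / 2)) ≤ n * C := by
        refine le_trans ?_ hsum
        have e : 2 ^ (n - 1) = 2 ^ (n - 2) + 2 ^ (n - 2) := by
          rw [show n - 1 = n - 2 + 1 by omega, pow_succ]; ring
        rw [e, mul_add]
        have e2 : n * (n * (n / 2)) ≤ n ^ 3 := by
          calc n * (n * (n / 2)) ≤ n * (n * n) := by
                apply Nat.mul_le_mul_left
                apply Nat.mul_le_mul_left
                omega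
            _ = n ^ 3 := by ring
        omega
      exact Nat.le_of_mul_le_mul_left h4 (by omega)
    have hbb := L_le b
    have hab' : 2 ^ a ≤ 2 ^ b := Nat.pow_le_pow_right (by norm_num) (by omega)
    calc L a * L b * 2 ^ (n * (n / 2)) ≤ 2 ^ 2 ^ a * 2 ^ 2 ^ b * 2 ^ (n * (n / 2)) := by gcongr
      _ = 2 ^ (2 ^ a + 2 ^ b + n * (n / 2)) := by rw [← pow_add, ← pow_add]
      _ ≤ 2 ^ C := by
          apply Nat.pow_le_pow_right (by norm_num)
          rw [pow_succ] at h3
          omega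
      _ ≤ L n := hmid
  · obtain ⟨m, rfl⟩ : ∃ m, n = m + 1 := ⟨n - 1, by omega⟩
    have hg := growth m (by omega)
    have hbm : L b ≤ L m := L_mono (by omega)
    have key : 2 ^ a + (m + 1) * ((m + 1) / 2) + 1 ≤ m ^ 2 := by
      nlinarith
    have h5 : 2 * (L a * L b * 2 ^ ((m + 1) * ((m + 1) / 2))) ≤ 2 * L (m + 1) := by
      calc 2 * (L a * L b * 2 ^ ((m + 1) * ((m + 1) / 2)))
          ≤ 2 * (2 ^ 2 ^ a * L m * 2 ^ ((m + 1) * ((m + 1) / 2))) := by gcongr
        _ = 2 ^ (2 ^ a + (m + 1) * ((m + 1) / 2) + 1) * L m := by rw [pow_add, pow_add]; ring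
        _ ≤ 2 ^ (m ^ 2) * L m := by
            gcongr
            norm_num
        _ ≤ 2 * L (m + 1) := by omega
    omega

/-- Few geometries are not primitive, even after multiplication by `n! * 2 ^ n`. -/
lemma N_small (n : ℕ) (hn : 65 ≤ n) : N n * (n.factorial * 2 ^ n) ≤ L n := by
  have each : ∀ j ∈ range (n + 1), n.choose j * f n j * 2 ^ (n * (n / 2)) ≤ 2 ^ n * L n := by
    intro j hj
    rw [mem_range] at hj
    unfold f
    split_ifs with hc
    · have hT : L j * L (n + 1 - j) * 2 ^ (n * (n / 2)) ≤ L n := by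
        rcases Nat.lt_or_ge (n + 1) (2 * j) with h5 | h5
        · have := term2 n (n + 1 - j) (by omega) (by omega) hn
          rw [show n + 1 - (n + 1 - j) = j by omega] at this
          rw [mul_comm (L j)]
          exact this
        · exact term2 n j hc.1 h5 hn
      have hch : n.choose j ≤ 2 ^ n := by
        rw [← Nat.sum_range_choose n]
        exact single_le_sum (f := fun i => n.choose i) (fun _ _ => Nat.zero_le _)
          (mem_range.2 hj)
      calc n.choose j * (L j * L (n + 1 - j)) * 2 ^ (n * (n / 2)) =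
          n.choose j * (L j * L (n + 1 - j) * 2 ^ (n * (n / 2))) := by ring
        _ ≤ 2 ^ n * L n := Nat.mul_le_mul hch hT
    · simp
  have h1 : N n * 2 ^ (n * (n / 2)) ≤ (n + 1) * (2 ^ n * L n) := by
    calc N n * 2 ^ (n * (n / 2)) ≤
        (∑ j ∈ range (n + 1), n.choose j * f n j) * 2 ^ (n * (n / 2)) :=
          Nat.mul_le_mul_right _ (N_le n)
      _ = ∑ j ∈ range (n + 1), n.choose j * f n j * 2 ^ (n * (n / 2)) := sum_mul _ _ _
      _ ≤ ∑ _j ∈ range (n + 1), 2 ^ n * L n := sum_le_sum each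
      _ = (n + 1) * (2 ^ n * L n) := by rw [sum_const, card_range, smul_eq_mul]
  have h2 : n.factorial * 2 ^ n * ((n + 1) * 2 ^ n) ≤ 2 ^ (n * (n / 2)) := by
    have e1 : n.factorial ≤ 2 ^ (n * (n / 8)) := by
      calc n.factorial ≤ n ^ n := Nat.factorial_le_pow n
        _ ≤ (2 ^ (n / 8)) ^ n := Nat.pow_le_pow_left (le_pow (by omega)) n
        _ = 2 ^ (n * (n / 8)) := by rw [← pow_mul]; ring_nf
    have e2 : n + 1 ≤ 2 ^ n := Nat.lt_two_pow_self
    calc n.factorial * 2 ^ n * ((n + 1) * 2 ^ n) ≤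
        2 ^ (n * (n / 8)) * 2 ^ n * (2 ^ n * 2 ^ n) := by gcongr
      _ = 2 ^ (n * (n / 8) + 3 * n) := by rw [← pow_add, ← pow_add, ← pow_add]; ring_nf
      _ ≤ 2 ^ (n * (n / 2)) := by
          apply Nat.pow_le_pow_right (by norm_num)
          have : n * (n / 8) + 3 * n = n * (n / 8 + 3) := by ring
          rw [this]
          exact Nat.mul_le_mul_left _ (by omega)
  have h3 : N n * (n.factorial * 2 ^ n) * ((n + 1) * 2 ^ n) ≤ L n * ((n + 1) * 2 ^ n) := by
    calc N n * (n.factorial * 2 ^ n) * ((n + 1) * 2 ^ n) =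
        N n * (n.factorial * 2 ^ n * ((n + 1) * 2 ^ n)) := by ring
      _ ≤ N n * 2 ^ (n * (n / 2)) := Nat.mul_le_mul_left _ h2
      _ ≤ (n + 1) * (2 ^ n * L n) := h1
      _ = L n * ((n + 1) * 2 ^ n) := by ring
  exact Nat.le_of_mul_le_mul_right h3 (by positivity)

end Run7.h840.CGU
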